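import Pool.Agent.Helper78.SD.Goals

/-! Packet F34. -/

universe u v w

namespace Pool.Agent.Helper89.SD

open Pool.Agent.Helper10.Width Pool.Agent.Helper72.Width Pool.Agent.Helper78.SD

theorem goalF3 : GoalF3.{u, v, w} := by
  intro S _ S₀ J B N _ _ _ _ _ _ _ a b h j φ hφ
  obtain ⟨g, hg⟩ := exists_hom_of_pp (N := N) a b h
  have h1 := φ.map_sol (Coind.post g) hφ
  have h2 : Coind.post g (B.pr j a : Coind S₀ N) = B.pr j b := by
    ext t
    rw [Coind.post_apply, B.pr_apply, B.pr_apply, map_smul, hg]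
  rw [← h2]
  exact h1

theorem goalF4 : GoalF4.{u, v} := by
  intro S _ N _ _ _ _ _ _ _ a α β h
  let K : {σ : PP S // a ∈ σ.sol N} → Set (N × N) := fun σ =>
    {p | p.1 + p.2 = a ∧ p.1 ∈ ((σ.1.inf α).sol N : Set N) ∧ p.2 ∈ ((σ.1.inf β).sol N : Set N)}
  have hclosed : ∀ σ, IsClosed (K σ) := by
    intro σ
    refine IsClosed.inter (isClosed_eq (continuous_fst.add continuous_snd) continuous_const)
      (IsClosed.inter ?_ ?_)
    · exact (isClosed_sol (N := N) (σ.1.inf α)).preimage continuous_fst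
    · exact (isClosed_sol (N := N) (σ.1.inf β)).preimage continuous_snd
  have hne : ∀ σ, (K σ).Nonempty := by
    intro σ
    have h1 := h σ.1 σ.2
    rw [PP.sol_sup, AddSubgroup.mem_sup] at h1
    obtain ⟨b, hb, c, hc, hbc⟩ := h1
    exact ⟨(b, c), hbc, hb, hc⟩
  have hdir : Directed (· ⊇ ·) K := by
    intro σ σ'
    refine ⟨⟨σ.1.inf σ'.1, by rw [PP.sol_inf]; exact ⟨σ.2, σ'.2⟩⟩, ?_, ?_⟩
    · rintro ⟨b, c⟩ ⟨h1, h2, h3⟩
      rw [SetLike.mem_coe, PP.sol_inf, PP.sol_inf] at h2 h3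
      refine ⟨h1, ?_, ?_⟩
      · rw [SetLike.mem_coe, PP.sol_inf]
        exact ⟨h2.1.1, h2.2⟩
      · rw [SetLike.mem_coe, PP.sol_inf]
        exact ⟨h3.1.1, h3.2⟩
    · rintro ⟨b, c⟩ ⟨h1, h2, h3⟩
      rw [SetLike.mem_coe, PP.sol_inf, PP.sol_inf] at h2 h3
      refine ⟨h1, ?_, ?_⟩
      · rw [SetLike.mem_coe, PP.sol_inf]
        exact ⟨h2.1.2, h2.2⟩
      · rw [SetLike.mem_coe, PP.sol_inf]
        exact ⟨h3.1.2, h3.2⟩
  have : Nonempty {σ : PP S // a ∈ σ.sol N} := ⟨⟨PP.top S, by rw [PP.sol_top]; trivial⟩⟩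
  obtain ⟨⟨b, c⟩, hbc⟩ := IsCompact.nonempty_iInter_of_directed_nonempty_isCompact_isClosed K hdir
    hne (fun σ => (hclosed σ).isCompact) hclosed
  have hall : ∀ σ : PP S, a ∈ σ.sol N → b + c = a ∧ b ∈ (σ.inf α).sol N ∧ c ∈ (σ.inf β).sol N := by
    intro σ hσ
    exact Set.mem_iInter.1 hbc ⟨σ, hσ⟩
  have htop := hall (PP.top S) (by rw [PP.sol_top]; trivial)
  refine ⟨b, c, htop.1.symm, ?_, ?_, ?_, ?_⟩
  · have := htop.2.1
    rw [PP.sol_inf] at this
    exact this.2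
  · have := htop.2.2
    rw [PP.sol_inf] at this
    exact this.2
  · intro σ hσ
    have := (hall σ hσ).2.1
    rw [PP.sol_inf] at this
    exact this.1
  · intro σ hσ
    have := (hall σ hσ).2.2
    rw [PP.sol_inf] at this
    exact this.1

end Pool.Agent.Helper89.SD
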