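import Pool.Agent.Helper38.SD.Goals

/-!
# Packet SD-A_CUTF (MP_fc6b1e_nt): the field of a character and the Teichmuller character
-/

set_option autoImplicit false

namespace Pool.Agent.Helper89.SD

open Module

theorem om_eq_one {p : ℕ} [Fact p.Prime] (z : ℤ_[p]) (hz : z ^ (p - 1) = 1)
    (hd : (p : ℤ_[p]) ∣ z - 1) : z = 1 := by
  have hp : p.Prime := Fact.out
  have h1 : (∑ i ∈ Finset.range (p - 1), z ^ i) * (z - 1) = 0 := by
    rw [geom_sum_mul, hz, sub_self]
  rcases mul_eq_zero.1 h1 with h2 | h2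
  · exfalso
    have h3 : (p : ℤ_[p]) ∣ (∑ i ∈ Finset.range (p - 1), z ^ i) - ((p - 1 : ℕ) : ℤ_[p]) := by
      have h4 : (∑ i ∈ Finset.range (p - 1), z ^ i) - ((p - 1 : ℕ) : ℤ_[p]) =
          ∑ i ∈ Finset.range (p - 1), (z ^ i - 1) := by
        rw [Finset.sum_sub_distrib]
        simp
      rw [h4]
      refine Finset.dvd_sum fun i _ => hd.trans ?_
      have h5 := sub_dvd_pow_sub_pow z 1 i
      rwa [one_pow] at h5
    rw [h2, zero_sub, Nat.cast_sub hp.one_le, Nat.cast_one] at h3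
    have h6 : (p : ℤ_[p]) ∣ 1 := by
      have h7 := dvd_add h3 (dvd_refl (p : ℤ_[p]))
      have h8 : -((p : ℤ_[p]) - 1) + p = 1 := by ring
      rwa [h8] at h7
    exact PadicInt.prime_p.not_isUnit (isUnit_of_dvd_one h6)
  · exact sub_eq_zero.1 h2

theorem core {p : ℕ} [Fact p.Prime] {K : Type} [Field K] [NumberField K]
    (om u : (AlgebraicClosure K ≃ₐ[K] AlgebraicClosure K) →* ℤ_[p]ˣ)
    (hmul : ∀ g : AlgebraicClosure K ≃ₐ[K] AlgebraicClosure K, cyclotomicCharacter (AlgebraicClosure K) p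
      (g : AlgebraicClosure K ≃+* AlgebraicClosure K) = om g * u g)
    (hpow : ∀ g, om g ^ (p - 1) = 1)
    (hu : ∀ g, (p : ℤ_[p]) ∣ ((u g : ℤ_[p]ˣ) : ℤ_[p]) - 1) {C : Type} [Group C]
    (χ : (AlgebraicClosure K ≃ₐ[K] AlgebraicClosure K) →* C)
    (H : IntermediateField K (AlgebraicClosure K)) [FiniteDimensional K H]
    (hH : ∀ g : AlgebraicClosure K ≃ₐ[K] AlgebraicClosure K, (∀ x ∈ H, g x = x) ↔ χ g = 1) :
    ∃ F : IntermediateField K (AlgebraicClosure K), FiniteDimensional K F ∧ IsGalois K F ∧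
      ∀ g : AlgebraicClosure K ≃ₐ[K] AlgebraicClosure K,
        (∀ x ∈ F, g x = x) ↔ χ g = 1 ∧ om g = 1 := by
  have hp : p.Prime := Fact.out
  -- a primitive p-th root of unity
  have hnz : NeZero ((p : ℕ) : AlgebraicClosure K) := ⟨Nat.cast_ne_zero.2 hp.ne_zero⟩
  obtain ⟨ζ, hζ⟩ := HasEnoughRootsOfUnity.exists_primitiveRoot (AlgebraicClosure K) p
  have hint : IsIntegral K ζ := Algebra.IsIntegral.isIntegral ζ
  have hfd : FiniteDimensional K (IntermediateField.adjoin K {ζ}) :=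
    IntermediateField.adjoin.finiteDimensional hint
  set X : IntermediateField K (AlgebraicClosure K) := H ⊔ IntermediateField.adjoin K {ζ} with hX
  have hXfd : FiniteDimensional K X := IntermediateField.finiteDimensional_sup _ _
  have hom : ∀ g : AlgebraicClosure K ≃ₐ[K] AlgebraicClosure K, g ζ = ζ → om g = 1 := by
    intro g hg
    have h1 : ζ ^ p ^ 1 = 1 := by rw [pow_one]; exact hζ.pow_eq_one
    have h2 := cyclotomicCharacter.spec p (g : AlgebraicClosure K ≃+* AlgebraicClosure K) ζ h1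
    set c := cyclotomicCharacter (AlgebraicClosure K) p
      (g : AlgebraicClosure K ≃+* AlgebraicClosure K) with hc
    have h3 : (g : AlgebraicClosure K ≃+* AlgebraicClosure K) ζ = ζ := hg
    rw [h3] at h2
    have h4 : (PadicInt.toZModPow 1 (c : ℤ_[p])) = 1 := by
      have hlt : 1 < p ^ 1 := by rw [pow_one]; exact hp.one_lt
      have : NeZero (p ^ 1) := ⟨by omega⟩
      have h5 : ζ ^ 1 = ζ ^ (PadicInt.toZModPow 1 (c : ℤ_[p])).val := by
        rw [pow_one]
        exact h2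
      have h6 : IsPrimitiveRoot ζ (p ^ 1) := by rw [pow_one]; exact hζ
      have h7 := h6.pow_inj hlt (ZMod.val_lt _) h5
      have : Fact (1 < p ^ 1) := ⟨hlt⟩
      apply ZMod.val_injective
      rw [ZMod.val_one, ← h7]
    have h8 : (p : ℤ_[p]) ∣ (c : ℤ_[p]) - 1 := by
      have h9 : (c : ℤ_[p]) - 1 ∈ RingHom.ker (PadicInt.toZModPow 1 : ℤ_[p] →+* ZMod (p ^ 1)) := by
        rw [RingHom.mem_ker, map_sub, map_one, h4, sub_self]
      rw [PadicInt.ker_toZModPow, Ideal.mem_span_singleton, pow_one] at h9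
      exact h9
    rw [hc, hmul g, Units.val_mul] at h8
    have h10 : (p : ℤ_[p]) ∣ ((om g : ℤ_[p]ˣ) : ℤ_[p]) - 1 := by
      have h11 : ((om g : ℤ_[p]ˣ) : ℤ_[p]) - 1 =
          (((om g : ℤ_[p]ˣ) : ℤ_[p]) * ((u g : ℤ_[p]ˣ) : ℤ_[p]) - 1) -
            ((om g : ℤ_[p]ˣ) : ℤ_[p]) * (((u g : ℤ_[p]ˣ) : ℤ_[p]) - 1) := by ring
      rw [h11]
      exact dvd_sub h8 ((hu g).mul_left _)
    apply Units.ext
    rw [Units.val_one]
    refine om_eq_one _ ?_ h10
    rw [← Units.val_pow_eq_pow_val, hpow, Units.val_one]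
  -- the kernel
  set N : Subgroup (AlgebraicClosure K ≃ₐ[K] AlgebraicClosure K) := χ.ker ⊓ om.ker with hN
  have hNn : N.Normal := inferInstance
  have hle : X.fixingSubgroup ≤ N := by
    intro g hg
    have hg' := (IntermediateField.mem_fixingSubgroup_iff _ _).1 hg
    rw [hN, Subgroup.mem_inf, MonoidHom.mem_ker, MonoidHom.mem_ker]
    refine ⟨(hH g).1 fun x hx => hg' x (le_sup_left (a := H) hx), hom g ?_⟩
    exact hg' ζ ((le_sup_right : IntermediateField.adjoin K {ζ} ≤ X)
      (IntermediateField.mem_adjoin_simple_self K ζ))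
  have hopen : IsOpen (N : Set (AlgebraicClosure K ≃ₐ[K] AlgebraicClosure K)) :=
    Subgroup.isOpen_mono hle X.fixingSubgroup_isOpen
  have hclosed : IsClosed (N : Set (AlgebraicClosure K ≃ₐ[K] AlgebraicClosure K)) :=
    Subgroup.isClosed_of_isOpen _ hopen
  have hfix : (IntermediateField.fixedField N).fixingSubgroup = N :=
    InfiniteGalois.fixingSubgroup_fixedField ⟨N, hclosed⟩
  have hFX : IntermediateField.fixedField N ≤ X := by
    rw [← InfiniteGalois.fixedField_fixingSubgroup X]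
    exact IntermediateField.fixedField_antitone hle
  refine ⟨IntermediateField.fixedField N, ?_, ?_, ?_⟩
  · exact FiniteDimensional.of_injective (IntermediateField.inclusion hFX).toLinearMap
      (IntermediateField.inclusion hFX).injective
  · rw [← InfiniteGalois.normal_iff_isGalois, hfix]
    exact hNn
  · intro g
    rw [← IntermediateField.mem_fixingSubgroup_iff, hfix, hN, Subgroup.mem_inf,
      MonoidHom.mem_ker, MonoidHom.mem_ker]

theorem a_cutf : Pool.Agent.Helper38.SD.A_CUTF := by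
  intro p _ K _ _ η om u hC χ hχ
  obtain ⟨H, hfd, hH⟩ := hχ
  have := hfd
  exact core om u (fun g => hC.mul g) hC.om_pow hC.u_one χ H (fun g => (hH g).symm)

end Pool.Agent.Helper89.SD
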