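import Pool.Agent.Helper45.SD.Goals

/-! Packet ID. -/

set_option autoImplicit false

open Finset

namespace Pool.Agent.Helper89.SD

open Pool.Agent.Helper45.SD

theorem psi_add (n : ℕ) [NeZero n] (a b : ZMod n) : psi n (a + b) = psi n a * psi n b :=
  AddChar.map_add_eq_mul _ a b

theorem psi_zero (n : ℕ) [NeZero n] : psi n 0 = 1 := AddChar.map_zero_eq_one _

theorem sum_psi (n : ℕ) [NeZero n] (b : ZMod n) :
    ∑ z : ZMod n, psi n (z * b) = if b = 0 then (n : ℂ) else 0 := by
  have h := AddChar.sum_mulShift b (ZMod.isPrimitive_stdAddChar n)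
  rw [ZMod.card] at h
  change ∑ z : ZMod n, ZMod.stdAddChar (z * b) = _
  rw [h]
  split_ifs
  · rfl
  · exact Nat.cast_zero

theorem sum_psi_erase (n : ℕ) [NeZero n] (b : ZMod n) :
    ∑ z ∈ Finset.univ.erase (0 : ZMod n), psi n (z * b) =
      (if b = 0 then (n : ℂ) else 0) - 1 := by
  rw [← sum_psi, ← Finset.add_sum_erase _ _ (Finset.mem_univ (0 : ZMod n)), zero_mul, psi_zero]
  ring

/-- sum over the subsets containing `y` -/
noncomputable def W (n : ℕ) [NeZero n] (k : ℕ) (y a : ZMod n) : ℂ :=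
  ∑ T ∈ ((Finset.univ.erase (0 : ZMod n)).powersetCard k).filter (fun T => y ∈ T),
    psi n (a * ∑ z ∈ T, z)

theorem W_zero (n : ℕ) [NeZero n] (y a : ZMod n) : W n 0 y a = 0 := by
  rw [W, Finset.powersetCard_zero]
  apply Finset.sum_eq_zero
  intro T hT
  rw [Finset.mem_filter, Finset.mem_singleton] at hT
  rw [hT.1] at hT
  exact absurd hT.2 (Finset.notMem_empty _)

theorem W_succ (n : ℕ) [NeZero n] (k : ℕ) (y a : ZMod n) (hy : y ≠ 0) :
    W n (k + 1) y a = psi n (a * y) * (Es n k a - W n k y a) := by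
  have h1 : Es n k a - W n k y a =
      ∑ T ∈ ((Finset.univ.erase (0 : ZMod n)).powersetCard k).filter (fun T => ¬ y ∈ T),
        psi n (a * ∑ z ∈ T, z) := by
    rw [Es, W, ← Finset.sum_filter_add_sum_filter_not
      ((Finset.univ.erase (0 : ZMod n)).powersetCard k) (fun T => y ∈ T)]
    ring
  rw [h1, W, Finset.mul_sum]
  refine Finset.sum_bij' (fun T _ => T.erase y) (fun T _ => insert y T) ?_ ?_ ?_ ?_ ?_
  · intro T hT
    rw [Finset.mem_filter, Finset.mem_powersetCard] at hT ⊢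
    refine ⟨⟨(Finset.erase_subset _ _).trans hT.1.1, ?_⟩, Finset.notMem_erase _ _⟩
    rw [Finset.card_erase_of_mem hT.2, hT.1.2]
    rfl
  · intro T hT
    rw [Finset.mem_filter, Finset.mem_powersetCard] at hT ⊢
    refine ⟨⟨?_, ?_⟩, Finset.mem_insert_self _ _⟩
    · exact Finset.insert_subset (Finset.mem_erase.2 ⟨hy, Finset.mem_univ _⟩) hT.1.1
    · rw [Finset.card_insert_of_notMem hT.2, hT.1.2]
  · intro T hT
    rw [Finset.mem_filter] at hT
    exact Finset.insert_erase hT.2
  · intro T hT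
    rw [Finset.mem_filter] at hT
    exact Finset.erase_insert hT.2
  · intro T hT
    rw [Finset.mem_filter] at hT
    rw [← psi_add, ← mul_add, Finset.add_sum_erase T (fun z => z) hT.2]

theorem W_eq (n : ℕ) [NeZero n] (y a : ZMod n) (hy : y ≠ 0) : ∀ k : ℕ,
    W n k y a = ∑ i ∈ Finset.range k,
      (-1) ^ i * psi n (a * ((i + 1 : ℕ) : ZMod n) * y) * Es n (k - (i + 1)) a := by
  intro k
  induction k with
  | zero => rw [W_zero]; rfl
  | succ k ih =>
    rw [W_succ n k y a hy, ih, Finset.sum_range_succ', mul_sub, Finset.mul_sum, sub_eq_add_neg,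
      ← Finset.sum_neg_distrib, add_comm]
    congr 1
    · refine Finset.sum_congr rfl fun i _ => ?_
      have e1 : k + 1 - (i + 1 + 1) = k - (i + 1) := by omega
      have e2 : a * ((i + 1 + 1 : ℕ) : ZMod n) * y =
          a * y + a * ((i + 1 : ℕ) : ZMod n) * y := by push_cast; ring
      rw [e1, e2, psi_add, pow_succ]
      ring
    · have e1 : k + 1 - (0 + 1) = k := by omega
      rw [e1]
      simp

theorem W_eq' (n : ℕ) [NeZero n] (y a : ZMod n) (hy : y ≠ 0) (k : ℕ) :
    W n k y a = ∑ j ∈ Finset.Icc 1 k,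
      (-1) ^ (j - 1) * Es n (k - j) a * psi n (y * (a * (j : ZMod n))) := by
  have h1 : Finset.Icc 1 k = Finset.Ico 1 (k + 1) := by
    ext j; simp only [Finset.mem_Icc, Finset.mem_Ico]; omega
  rw [W_eq n y a hy k, h1, Finset.sum_Ico_eq_sum_range]
  refine Finset.sum_congr (by simp) fun i _ => ?_
  have e1 : 1 + i - 1 = i := by omega
  have e2 : k - (1 + i) = k - (i + 1) := by omega
  rw [e1, e2]
  have e3 : a * ((i + 1 : ℕ) : ZMod n) * y = y * (a * ((1 + i : ℕ) : ZMod n)) := by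
    push_cast; ring
  rw [e3]
  ring

theorem deg_eq (n : ℕ) [NeZero n] (k : ℕ) (x y : ZMod n) :
    (n : ℂ) * (deg n k x y : ℂ) = ∑ a : ZMod n, psi n (-(a * x)) * W n k y a := by
  have h1 : ∀ T : Finset (ZMod n), ∑ a : ZMod n, psi n (-(a * x)) * psi n (a * ∑ z ∈ T, z) =
      if ∑ z ∈ T, z = x then (n : ℂ) else 0 := by
    intro T
    have h2 : ∀ a : ZMod n, psi n (-(a * x)) * psi n (a * ∑ z ∈ T, z) =
        psi n (a * (∑ z ∈ T, z - x)) := by
      intro a
      rw [← psi_add]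
      congr 1
      ring
    rw [Finset.sum_congr rfl (fun a _ => h2 a), sum_psi]
    by_cases h : ∑ z ∈ T, z = x
    · rw [if_pos h, if_pos (sub_eq_zero.2 h)]
    · rw [if_neg h, if_neg (fun h' => h (sub_eq_zero.1 h'))]
  have h0 : ∀ a : ZMod n, psi n (-(a * x)) * W n k y a =
      ∑ T ∈ ((Finset.univ.erase (0 : ZMod n)).powersetCard k).filter (fun T => y ∈ T),
        psi n (-(a * x)) * psi n (a * ∑ z ∈ T, z) := fun a => by rw [W, Finset.mul_sum]
  rw [Finset.sum_congr rfl (fun a _ => h0 a), Finset.sum_comm, Finset.sum_congr rfl (fun T _ => h1 T), ← Finset.sum_filter,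
    Finset.sum_const, nsmul_eq_mul, mul_comm]
  congr 2
  rw [deg, bl, Finset.filter_filter, Finset.filter_filter]
  congr 1
  ext T
  simp only [Finset.mem_filter]
  tauto

theorem id_main : G_ID := by
  intro n _ k x
  refine ⟨∑ a : ZMod n, psi n (-(a * x)) * ∑ j ∈ Finset.Icc 1 k,
    (-1) ^ (j - 1) * Es n (k - j) a, fun l _ => ?_⟩
  have h1 : (n : ℂ) * ∑ y ∈ Finset.univ.erase (0 : ZMod n), (deg n k x y : ℂ) * psi n (l * y) =
      ∑ y ∈ Finset.univ.erase (0 : ZMod n), ∑ a : ZMod n, ∑ j ∈ Finset.Icc 1 k,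
        psi n (-(a * x)) * ((-1) ^ (j - 1) * Es n (k - j) a) *
          psi n (y * (a * (j : ZMod n) + l)) := by
    rw [Finset.mul_sum]
    refine Finset.sum_congr rfl fun y hy => ?_
    rw [← mul_assoc, deg_eq, Finset.sum_mul]
    refine Finset.sum_congr rfl fun a _ => ?_
    rw [W_eq' n y a (Finset.ne_of_mem_erase hy) k, Finset.mul_sum, Finset.sum_mul]
    refine Finset.sum_congr rfl fun j _ => ?_
    have e : y * (a * (j : ZMod n) + l) = y * (a * (j : ZMod n)) + l * y := by ring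
    rw [e, psi_add]
    ring
  rw [h1, Finset.sum_comm, Gd, Finset.mul_sum, ← Finset.sum_sub_distrib]
  refine Finset.sum_congr rfl fun a _ => ?_
  rw [Finset.sum_comm, Finset.mul_sum, Finset.mul_sum, Finset.mul_sum,
    ← Finset.sum_sub_distrib]
  refine Finset.sum_congr rfl fun j _ => ?_
  rw [← Finset.mul_sum, sum_psi_erase]
  split_ifs
  · ring
  · ring

end Pool.Agent.Helper89.SD
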