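import Pool.Agent.Helper45.SD.Goals

/-! Packet PROP. -/

set_option autoImplicit false

open Finset

namespace Pool.Agent.Helper89.SD

open Pool.Agent.Helper45.SD

theorem Bs_eq_zero {n k s u : ℕ} (h : ¬ u ∣ s) : Bs n k s u = 0 := by
  unfold Bs
  refine Finset.sum_eq_zero fun j _ => ?_
  rw [if_neg]
  intro h1
  apply h
  rw [← h1]
  exact Nat.div_dvd_of_dvd (Nat.gcd_dvd_left s j)

theorem ep_ne_zero {M f : ℕ} (h : f < M) : ep M f ≠ 0 := by
  unfold ep
  refine mul_ne_zero (pow_ne_zero _ (by norm_num)) ?_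
  exact_mod_cast (Nat.choose_pos (by omega : f ≤ M - 1)).ne'

theorem a0 : G_A0 := by
  intro n k g s0 hn hk hg hs0 h1 hr hmax hrn hk1 hAV
  have hn0 : n ≠ 0 := by omega
  have hz : Bs n k s0 s0 = 0 := by
    have h2 := hAV s0 hs0 h1
    rw [hrn, zero_mul, mul_zero] at h2
    have hphi : (Nat.totient n : ℤ) ≠ 0 := by
      exact_mod_cast (Nat.totient_pos.2 (by omega)).ne'
    have h3 := (mul_eq_zero.1 h2).resolve_left hphi
    rw [Finset.sum_eq_single s0] at h3
    · exact (mul_eq_zero.1 h3).resolve_left hr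
    · intro s hs hne
      rw [Nat.mem_divisors] at hs
      by_cases hrs : rg g s = 0
      · rw [hrs, zero_mul]
      · rw [Bs_eq_zero, mul_zero]
        intro h4
        exact hne (Nat.dvd_antisymm (hmax s hs.1 hrs) h4)
    · intro h4
      exact absurd (Nat.mem_divisors.2 ⟨hs0, hn0⟩) h4
  refine ⟨hz, ?_⟩
  by_contra hlt
  rw [not_le] at hlt
  have h5 : Bs n k s0 s0 = ∑ j ∈ Finset.Icc 1 k, if s0 / Nat.gcd s0 j = s0 then (1 : ℤ) else 0 := by
    unfold Bs
    refine Finset.sum_congr rfl fun j hj => ?_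
    rw [Finset.mem_Icc] at hj
    have h6 : (k - j) / s0 = 0 := Nat.div_eq_of_lt (by omega)
    rw [h6]
    simp [ep]
  have h7 : (0 : ℤ) < ∑ j ∈ Finset.Icc 1 k, if s0 / Nat.gcd s0 j = s0 then (1 : ℤ) else 0 := by
    refine Finset.sum_pos' (fun j _ => by split_ifs <;> norm_num) ⟨1, Finset.mem_Icc.2 ⟨le_rfl, hk1⟩, ?_⟩
    rw [Nat.gcd_one_right, Nat.div_one, if_pos rfl]
    norm_num
  rw [← h5, hz] at h7
  exact lt_irrefl _ h7

theorem star2 (hBLK : G_BLK) (hCNT : G_CNT) {n p k h : ℕ} (hn : 2 ≤ n) (hp : p.Prime)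
    (hh : 1 ≤ h) (hhp : h + 2 ≤ p) (hk : (p - 1) * k = h * (n - 1)) (hkn : k < n)
    {s u : ℕ} (hs : s ∣ n) (hsn : s < n) (hu : u ∣ s) (hpu : p ∣ u) :
    ((p : ℤ) - 1) * (((n / s : ℕ) : ℤ) - 1) * Bs n k s u =
      ep (n / s) (k / s) * (Nat.totient u : ℤ) * (((n / s : ℕ) : ℤ) *
        ((h : ℤ) * (((n / s : ℕ) : ℤ) - 1) - ((p : ℤ) - 1) * ((k / s : ℕ) : ℤ))) := by
  have hs0 : 0 < s := Nat.pos_of_dvd_of_pos hs (by omega)
  obtain ⟨M, hM⟩ := hs
  have hMe : n / s = M := by rw [hM]; exact Nat.mul_div_cancel_left M hs0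
  rw [hMe]
  have h1 := (hBLK n k s u ⟨M, hM⟩ (by omega) hu hkn).1 hsn
  rw [hMe] at h1
  have hdm : s * (k / s) + k % s = k := Nat.div_add_mod k s
  set f := k / s with hf
  set r := k % s with hr
  obtain ⟨p', hp'⟩ : ∃ p', p = p' + 1 := ⟨p - 1, by have := hp.two_le; omega⟩
  obtain ⟨n', hn'⟩ : ∃ n', n = n' + 1 := ⟨n - 1, by omega⟩
  have hk2 : p' * k + h = h * n := by
    have : (p - 1) * k = h * (n - 1) := hk
    rw [hp', hn'] at this
    simp only [Nat.add_sub_cancel] at this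
    rw [this, hn']
    ring
  have hkey : p' * r + h + s * (p' * f) = s * (h * M) := by
    have e1 : p' * (s * f + r) + h = h * (s * M) := by rw [hdm, ← hM]; exact hk2
    calc p' * r + h + s * (p' * f) = p' * (s * f + r) + h := by ring
      _ = h * (s * M) := e1
      _ = s * (h * M) := by ring
  have hle : p' * f ≤ h * M := by
    by_contra hc
    rw [not_le] at hc
    have := Nat.mul_lt_mul_of_pos_left hc hs0
    omega
  have hA : (p - 1) * r + h = s * (h * M - p' * f) := by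
    rw [Nat.mul_sub, hp', Nat.add_sub_cancel]
    omega
  have h2 := hCNT p s u r h (h * M - p' * f) hp hpu hu hs0 hh hhp hA
  have h3 : ((p : ℤ) - 1) * (Nu s u r : ℤ) =
      (Nat.totient u : ℤ) * ((h : ℤ) * M - ((p : ℤ) - 1) * f) := by
    have h4 : (((p - 1) * Nu s u r : ℕ) : ℤ) = ((Nat.totient u * (h * M - p' * f) : ℕ) : ℤ) := by
      rw [h2]
    rw [Nat.cast_mul, Nat.cast_mul, Nat.cast_sub hle] at h4
    have h5 : ((p - 1 : ℕ) : ℤ) = (p : ℤ) - 1 := by
      rw [hp']; push_cast; simp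
    have h6 : ((p' : ℕ) : ℤ) = (p : ℤ) - 1 := by rw [hp']; push_cast; ring
    rw [h5] at h4
    push_cast at h4
    rw [h6] at h4
    exact h4
  calc ((p : ℤ) - 1) * ((M : ℤ) - 1) * Bs n k s u
      = ((p : ℤ) - 1) * (((M : ℤ) - 1) * Bs n k s u) := by ring
    _ = ((p : ℤ) - 1) * (ep M f * (((M : ℤ) - 1) * (Nu s u r : ℤ) -
          (f : ℤ) * (Nat.totient u : ℤ))) := by rw [h1]
    _ = ep M f * (((M : ℤ) - 1) * (((p : ℤ) - 1) * (Nu s u r : ℤ)) -
          ((p : ℤ) - 1) * (f : ℤ) * (Nat.totient u : ℤ)) := by ring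
    _ = _ := by rw [h3]; ring

theorem prop (hBLK : G_BLK) (hCNT : G_CNT) (hR3 : G_R3) : G_PROP := by
  intro n p k h g hn hp hpn hmin hh hhp hk hg hAV
  have hn0 : n ≠ 0 := by omega
  have hp2 := hp.two_le
  obtain ⟨p', hp'⟩ : ∃ p', p = p' + 1 := ⟨p - 1, by omega⟩
  obtain ⟨n', hn'⟩ : ∃ n', n = n' + 1 := ⟨n - 1, by omega⟩
  have hp'1 : 1 ≤ p' := by omega
  have hk' : p' * k = h * n' := by
    have := hk
    rw [hp', hn'] at this
    simpa only [Nat.add_sub_cancel] using this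
  have hkn : k < n := by
    by_contra hc
    rw [not_lt] at hc
    have h1 : p' * n ≤ p' * k := Nat.mul_le_mul_left _ hc
    have h2 : h * n' ≤ p' * n' := Nat.mul_le_mul_right _ (by omega)
    have h3 : p' * n' < p' * n := Nat.mul_lt_mul_of_pos_left (by omega) (by omega)
    omega
  have hpZ : ((p : ℤ) - 1) ≠ 0 := by
    have : (2 : ℤ) ≤ p := by exact_mod_cast hp2
    omega
  have hphi : (Nat.totient n : ℤ) ≠ 0 := by
    exact_mod_cast (Nat.totient_pos.2 (by omega)).ne'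
  -- the case s = n
  have hNn : ∀ u : ℕ, u ∣ n → p ∣ u → ((p : ℤ) - 1) * (Nu n u k : ℤ) = (Nat.totient u : ℤ) * h := by
    intro u hu hpu
    have h1 : (p - 1) * k + h = n * h := by
      rw [hk, hn', Nat.add_sub_cancel]; ring
    have h2 := hCNT p n u k h h hp hpu hu (by omega) hh hhp h1
    have h3 : (((p - 1) * Nu n u k : ℕ) : ℤ) = ((Nat.totient u * h : ℕ) : ℤ) := by rw [h2]
    rw [Nat.cast_mul, Nat.cast_mul] at h3
    have h5 : ((p - 1 : ℕ) : ℤ) = (p : ℤ) - 1 := by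
      rw [hp']; push_cast; simp
    rw [h5] at h3
    exact h3
  have hPh : Ph n k = Nu n n k := by
    unfold Ph Nu
    congr 1
    refine Finset.filter_congr fun j _ => ?_
    rw [Nat.coprime_comm, Nat.Coprime]
    constructor
    · intro h1; rw [h1, Nat.div_one]
    · intro h1
      have h2 := Nat.div_mul_cancel (Nat.gcd_dvd_left n j)
      rw [h1] at h2
      exact Nat.eq_of_mul_eq_mul_left (by omega : 0 < n) (by rw [h2, mul_one])
  -- the main relation
  have hstar : ∀ u : ℕ, u ∣ n → p ∣ u →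
      ∑ s ∈ n.divisors.erase n, rg g s * Bs n k s u = 0 := by
    intro u hu hpu
    have hu0 : 0 < u := Nat.pos_of_dvd_of_pos hu (by omega)
    have hu1 : 1 < u := lt_of_lt_of_le (by omega) (Nat.le_of_dvd hu0 hpu)
    have h1 := hAV u hu hu1
    rw [← Finset.add_sum_erase _ _ (Nat.mem_divisors.2 ⟨dvd_rfl, hn0⟩),
      (hBLK n k n u dvd_rfl (by omega) hu hkn).2, hPh] at h1
    have h2 := hNn u hu hpu
    have h3 := hNn n dvd_rfl hpn
    have h4 : ((Nat.totient n : ℤ) * ((p : ℤ) - 1)) *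
        ∑ s ∈ n.divisors.erase n, rg g s * Bs n k s u = 0 := by
      have e1 : (Nat.totient n : ℤ) * ((p : ℤ) - 1) *
          ∑ s ∈ n.divisors.erase n, rg g s * Bs n k s u =
          ((p : ℤ) - 1) * ((Nat.totient n : ℤ) * (rg g n * (Nu n u k : ℤ) +
            ∑ s ∈ n.divisors.erase n, rg g s * Bs n k s u)) -
          (Nat.totient n : ℤ) * rg g n * (((p : ℤ) - 1) * (Nu n u k : ℤ)) := by ring
      rw [e1, h1, h2]
      have e2 : ((p : ℤ) - 1) * ((Nat.totient u : ℤ) * (rg g n * (Nu n n k : ℤ))) =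
          (Nat.totient u : ℤ) * rg g n * (((p : ℤ) - 1) * (Nu n n k : ℤ)) := by ring
      rw [e2, h3]
      ring
    exact (mul_eq_zero.1 h4).resolve_left (mul_ne_zero hphi hpZ)
  -- consequences of (**)
  have hE : ∀ s u : ℕ, s ∣ n → s < n → u ∣ s → p ∣ u → Bs n k s u = 0 →
      (h : ℤ) * (((n / s : ℕ) : ℤ) - 1) = ((p : ℤ) - 1) * ((k / s : ℕ) : ℤ) := by
    intro s u hs hsn hu hpu h0
    have h1 := star2 hBLK hCNT hn hp hh hhp hk hkn hs hsn hu hpu
    rw [h0, mul_zero] at h1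
    have hs0 : 0 < s := Nat.pos_of_dvd_of_pos hs (by omega)
    have hu0 : 0 < u := Nat.pos_of_dvd_of_pos hu hs0
    have hM0 : ((n / s : ℕ) : ℤ) ≠ 0 := by
      exact_mod_cast (Nat.div_pos (Nat.le_of_dvd (by omega) hs) hs0).ne'
    have hlt : k / s < n / s := by
      rw [Nat.div_lt_iff_lt_mul hs0, Nat.div_mul_cancel hs]
      exact hkn
    have h2 := mul_eq_zero.1 h1.symm
    rcases h2 with h2 | h2
    · rcases mul_eq_zero.1 h2 with h3 | h3
      · exact absurd h3 (ep_ne_zero hlt)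
      · exact absurd h3 (by exact_mod_cast (Nat.totient_pos.2 hu0).ne')
    · rcases mul_eq_zero.1 h2 with h3 | h3
      · exact absurd h3 hM0
      · linarith
  have hB : ∀ s u : ℕ, s ∣ n → s < n → u ∣ s → p ∣ u →
      (h : ℤ) * (((n / s : ℕ) : ℤ) - 1) = ((p : ℤ) - 1) * ((k / s : ℕ) : ℤ) →
      Bs n k s u = 0 := by
    intro s u hs hsn hu hpu h0
    have h1 := star2 hBLK hCNT hn hp hh hhp hk hkn hs hsn hu hpu
    rw [h0, sub_self, mul_zero, mul_zero] at h1
    have hs0 : 0 < s := Nat.pos_of_dvd_of_pos hs (by omega)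
    have hM2 : 2 ≤ n / s := by
      rw [Nat.le_div_iff_mul_le hs0]
      obtain ⟨t, ht⟩ := hs
      have ht2 : 2 ≤ t := by
        rcases Nat.lt_or_ge t 2 with h3 | h3
        · interval_cases t
          · omega
          · omega
        · exact h3
      rw [ht, mul_comm]
      exact Nat.mul_le_mul_left _ ht2
    have hM1 : (((n / s : ℕ) : ℤ) - 1) ≠ 0 := by
      have : (2 : ℤ) ≤ ((n / s : ℕ) : ℤ) := by exact_mod_cast hM2
      omega
    exact (mul_eq_zero.1 h1).resolve_left (mul_ne_zero hpZ hM1)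
  -- reduction
  have hsuff : ∀ l : ℕ, l.Prime → l ∣ n → ((p : ℤ) - 1) ∣ (h : ℤ) * ((l : ℤ) - 1) →
      (n - 1) ∣ k * (l - 1) := by
    intro l hl _ hd
    obtain ⟨c, hc⟩ := hd
    have hl1 : 1 ≤ l := hl.one_lt.le
    have hc0 : ((k * (l - 1) : ℕ) : ℤ) = ((n - 1 : ℕ) : ℤ) * c := by
      apply mul_left_cancel₀ hpZ
      have e1 : ((n - 1 : ℕ) : ℤ) = (n' : ℤ) := by rw [hn']; simp
      have e2 : ((l - 1 : ℕ) : ℤ) = (l : ℤ) - 1 := by rw [Nat.cast_sub hl1]; simp
      have e3 : ((p : ℤ) - 1) * (k : ℤ) = (h : ℤ) * (n' : ℤ) := by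
        have : ((p' * k : ℕ) : ℤ) = ((h * n' : ℕ) : ℤ) := by rw [hk']
        push_cast at this
        rw [hp']
        push_cast
        linarith
      rw [Nat.cast_mul, e1, e2]
      calc ((p : ℤ) - 1) * ((k : ℤ) * ((l : ℤ) - 1)) =
          (((p : ℤ) - 1) * (k : ℤ)) * ((l : ℤ) - 1) := by ring
        _ = (h : ℤ) * (n' : ℤ) * ((l : ℤ) - 1) := by rw [e3]
        _ = (n' : ℤ) * ((h : ℤ) * ((l : ℤ) - 1)) := by ring
        _ = (n' : ℤ) * (((p : ℤ) - 1) * c) := by rw [hc]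
        _ = ((p : ℤ) - 1) * ((n' : ℤ) * c) := by ring
    exact Int.natCast_dvd_natCast.1 ⟨c, hc0⟩
  obtain ⟨s0, hs0n, hall, hrs0, hmax, hrl⟩ := hR3 n g (by omega) hg
  have hs0pos : 0 < s0 := Nat.pos_of_dvd_of_pos hs0n (by omega)
  intro l hl hln
  apply hsuff l hl hln
  by_cases hlp : l = p
  · rw [hlp]; exact Dvd.intro_left _ rfl
  have hcop : Nat.Coprime p l := (Nat.coprime_primes hp hl).2 (fun h1 => hlp h1.symm)
  by_cases hsn : s0 = n
  · -- case s0 = n
    obtain ⟨u, hu⟩ := hln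
    have hu0 : 0 < u := Nat.pos_of_ne_zero (by rintro rfl; omega)
    have hdiv : n / l = u := by rw [hu]; exact Nat.mul_div_cancel_left u hl.pos
    have hun : u ∣ n := ⟨l, by rw [hu, mul_comm]⟩
    have hult : u < n := by
      rw [hu]
      calc u = 1 * u := (one_mul u).symm
        _ < l * u := Nat.mul_lt_mul_of_pos_right hl.one_lt hu0
    have hpu : p ∣ u := hcop.dvd_of_dvd_mul_left (by rw [← hu]; exact hpn)
    have h1 := hstar u hun hpu
    rw [Finset.sum_eq_single u] at h1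
    · have h2 : rg g u ≠ 0 := by
        have := hrl l hl (by rw [hsn]; exact ⟨u, hu⟩)
        rwa [hsn, hdiv] at this
      have h3 := (mul_eq_zero.1 h1).resolve_left h2
      have h4 := hE u u hun hult dvd_rfl hpu h3
      have h5 : n / u = l := by rw [hu]; exact Nat.mul_div_cancel l hu0
      rw [h5] at h4
      exact ⟨_, h4⟩
    · intro s hs hne
      rw [Finset.mem_erase, Nat.mem_divisors] at hs
      rw [Bs_eq_zero, mul_zero]
      rintro ⟨t, rfl⟩
      have h6 : t ∣ l := by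
        have : u * t ∣ u * l := by rw [mul_comm u l, ← hu]; exact hs.2.1
        exact Nat.dvd_of_mul_dvd_mul_left hu0 this
      rcases (Nat.dvd_prime hl).1 h6 with h7 | h7
      · exact hne (by rw [h7, mul_one])
      · exact hs.1 (by rw [h7, hu, mul_comm])
    · intro h6
      exact absurd (Finset.mem_erase.2 ⟨hult.ne, Nat.mem_divisors.2 ⟨hun, hn0⟩⟩) h6
  · -- case s0 < n
    have hs0lt : s0 < n := lt_of_le_of_ne (Nat.le_of_dvd (by omega) hs0n) hsn
    have hps0 : p ∣ s0 := hall p hp hpn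
    have h1 := hstar s0 hs0n hps0
    rw [Finset.sum_eq_single s0] at h1
    swap
    · intro s hs hne
      rw [Finset.mem_erase, Nat.mem_divisors] at hs
      by_cases hrs : rg g s = 0
      · rw [hrs, zero_mul]
      · rw [Bs_eq_zero, mul_zero]
        intro h4
        exact hne (Nat.dvd_antisymm (hmax s hs.2.1 hrs) h4)
    swap
    · intro h6
      exact absurd (Finset.mem_erase.2 ⟨hs0lt.ne, Nat.mem_divisors.2 ⟨hs0n, hn0⟩⟩) h6
    have h2 := (mul_eq_zero.1 h1).resolve_left hrs0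
    have hE0 := hE s0 s0 hs0n hs0lt dvd_rfl hps0 h2
    have hls0 : l ∣ s0 := hall l hl hln
    have hrl' := hrl l hl hls0
    obtain ⟨u, hu⟩ := hls0
    have hu0 : 0 < u := Nat.pos_of_ne_zero (by rintro rfl; omega)
    have hdiv : s0 / l = u := by rw [hu]; exact Nat.mul_div_cancel_left u hl.pos
    rw [hdiv] at hrl'
    have hus0 : u ∣ s0 := ⟨l, by rw [hu, mul_comm]⟩
    have hun : u ∣ n := hus0.trans hs0n
    have hults : u < s0 := by
      rw [hu]
      calc u = 1 * u := (one_mul u).symm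
        _ < l * u := Nat.mul_lt_mul_of_pos_right hl.one_lt hu0
    have hult : u < n := hults.trans hs0lt
    have hpu : p ∣ u := hcop.dvd_of_dvd_mul_left (by rw [← hu]; exact hps0)
    have hB0 : Bs n k s0 u = 0 := hB s0 u hs0n hs0lt hus0 hpu hE0
    have h3 := hstar u hun hpu
    rw [Finset.sum_eq_single u] at h3
    · have h4 := (mul_eq_zero.1 h3).resolve_left hrl'
      have hEu := hE u u hun hult dvd_rfl hpu h4
      obtain ⟨N0, hN0⟩ := hs0n
      have e1 : n / s0 = N0 := by rw [hN0]; exact Nat.mul_div_cancel_left N0 hs0pos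
      have e2 : n / u = N0 * l := by
        rw [hN0, hu]
        have : l * u * N0 = u * (N0 * l) := by ring
        rw [this]
        exact Nat.mul_div_cancel_left _ hu0
      rw [e1] at hE0
      rw [e2] at hEu
      rw [Nat.cast_mul] at hEu
      have hd : ((p : ℤ) - 1) ∣ (N0 : ℤ) * ((h : ℤ) * ((l : ℤ) - 1)) := by
        refine ⟨((k / u : ℕ) : ℤ) - ((k / s0 : ℕ) : ℤ), ?_⟩
        have : (N0 : ℤ) * ((h : ℤ) * ((l : ℤ) - 1)) =
            (h : ℤ) * ((N0 : ℤ) * (l : ℤ) - 1) - (h : ℤ) * ((N0 : ℤ) - 1) := by ring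
        rw [this, hE0, hEu]
        ring
      have hN0n : N0 ∣ n := ⟨s0, by rw [hN0, mul_comm]⟩
      have hcop2 : Nat.Coprime (p - 1) N0 := by
        rw [Nat.coprime_iff_gcd_eq_one]
        by_contra hne
        obtain ⟨q, hq, hqd⟩ := Nat.exists_prime_and_dvd hne
        have hq1 : q ∣ p - 1 := hqd.trans (Nat.gcd_dvd_left _ _)
        have hq2 : q ∣ n := (hqd.trans (Nat.gcd_dvd_right _ _)).trans hN0n
        have hq3 := hmin q hq hq2
        have hq4 := Nat.le_of_dvd (by omega) hq1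
        omega
      have hcop3 : IsCoprime ((p : ℤ) - 1) (N0 : ℤ) := by
        have h5 : ((p - 1 : ℕ) : ℤ) = (p : ℤ) - 1 := by
          rw [hp']; push_cast; simp
        rw [← h5]
        exact Nat.isCoprime_iff_coprime.2 hcop2
      exact hcop3.dvd_of_dvd_mul_left hd
    · intro s hs hne
      rw [Finset.mem_erase, Nat.mem_divisors] at hs
      by_cases hus : u ∣ s
      · by_cases hrs : rg g s = 0
        · rw [hrs, zero_mul]
        · have h5 := hmax s hs.2.1 hrs
          obtain ⟨t, rfl⟩ := hus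
          have h6 : t ∣ l := by
            have : u * t ∣ u * l := by rw [mul_comm u l, ← hu]; exact h5
            exact Nat.dvd_of_mul_dvd_mul_left hu0 this
          rcases (Nat.dvd_prime hl).1 h6 with h7 | h7
          · exact absurd (by rw [h7, mul_one]) hne
          · have h8 : u * t = s0 := by rw [h7, hu, mul_comm]
            rw [h8, hB0, mul_zero]
      · rw [Bs_eq_zero hus, mul_zero]
    · intro h6
      exact absurd (Finset.mem_erase.2 ⟨hult.ne, Nat.mem_divisors.2 ⟨hun, hn0⟩⟩) h6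

end Pool.Agent.Helper89.SD
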