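import Pool.Agent.Helper71.SD.Goals

/-!
# MP_dcced1_gt, packets ECONST and ETOP

Local analysis of the labellings of the band of the 60-cube.
-/

namespace Pool.Agent.Helper71.SD.ETOP

open Pool.Agent.Helper71.AHtpy SimpleGraph

theorem card_tog (i : E) (S : Finset E) :
    (tog i S).card ≤ S.card + 1 ∧ S.card ≤ (tog i S).card + 1 := by
  by_cases h : i ∈ S
  · have e : tog i S = S.erase i := by
      ext x
      rw [mem_tog, Finset.mem_erase]
      constructor
      · rintro (⟨h1, h2⟩ | ⟨h1, h2⟩)
        · exact ⟨h2, h1⟩
        · subst h1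
          exact absurd h h2
      · rintro ⟨h1, h2⟩
        exact Or.inl ⟨h2, h1⟩
    rw [e]
    have := Finset.card_erase_add_one h
    omega
  · have e : tog i S = insert i S := by
      ext x
      rw [mem_tog, Finset.mem_insert]
      constructor
      · rintro (⟨h1, h2⟩ | ⟨h1, h2⟩)
        · exact Or.inr h1
        · exact Or.inl h1
      · rintro (h1 | h1)
        · subst h1
          exact Or.inr ⟨rfl, h⟩
        · refine Or.inl ⟨h1, ?_⟩
          rintro rfl
          exact h h1
    rw [e]
    have := Finset.card_insert_of_notMem h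
    omega

theorem Bd_tog {w : ℕ} {S : Finset E} (i : E) (h : Bd w S) : Bd (w + 1) (tog i S) := by
  have := card_tog i S
  unfold Bd at *
  omega

theorem Bd_mono {w w' : ℕ} (h : w ≤ w') {S : Finset E} (hS : Bd w S) : Bd w' S := by
  unfold Bd at *
  omega

theorem tog_comm (i j : E) (S : Finset E) : tog i (tog j S) = tog j (tog i S) := by
  unfold tog
  exact symmDiff_right_comm S {j} {i}

theorem econst : S_CONN → S_ECONST := by
  intro hconn δ hR hH S T hS hT
  refine hconn 2 (fun T => δ S = δ T) (by norm_num) (by norm_num) ?_ S T hS hT rfl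
  intro S' a hS' haS' heq
  have h1 : δ S' = δ (tog a S') := by
    rcases hR S' a (Bd_mono (by norm_num) hS') (Bd_mono (by norm_num) haS') with h | h | h
    · exact h
    · by_contra hne
      have := hH (tog a S') a haS' (fun h' => hne (h.trans h'))
      rw [tog_tog] at this
      exact this h
    · by_contra hne
      exact hH S' a hS' (fun h' => hne (h'.symm.trans h.symm)) h
  exact heq.trans h1

/-- A tournament without three-cycles has a top element. -/
theorem exists_top {α : Type} [DecidableEq α] (B : α → α → Prop) (J : α → Prop)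
    (htot : ∀ a c, J a → J c → a ≠ c → B a c ∨ B c a)
    (hno : ∀ a c d, J a → J c → J d → a ≠ c → c ≠ d → a ≠ d → B a c → B c d → B d a → False) :
    ∀ s : Finset α, s.Nonempty → (∀ a ∈ s, J a) → ∃ a ∈ s, ∀ c ∈ s, c ≠ a → B a c := by
  intro s
  induction s using Finset.induction_on with
  | empty => intro h; exact absurd h (by simp)
  | insert x s hx ih =>
    intro _ hJ
    by_cases hs : s.Nonempty
    · obtain ⟨a, has, ha⟩ := ih hs (fun a ha => hJ a (Finset.mem_insert_of_mem ha))
      have hax : a ≠ x := by rintro rfl; exact hx has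
      have hJa := hJ a (Finset.mem_insert_of_mem has)
      have hJx := hJ x (Finset.mem_insert_self _ _)
      rcases htot a x hJa hJx hax with h | h
      · refine ⟨a, Finset.mem_insert_of_mem has, ?_⟩
        intro c hc hca
        rcases Finset.mem_insert.1 hc with rfl | hc
        · exact h
        · exact ha c hc hca
      · refine ⟨x, Finset.mem_insert_self _ _, ?_⟩
        intro c hc hcx
        rcases Finset.mem_insert.1 hc with rfl | hc
        · exact absurd rfl hcx
        · by_cases hca : c = a
          · subst hca
            exact h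
          · have hJc := hJ c (Finset.mem_insert_of_mem hc)
            rcases htot x c hJx hJc (Ne.symm hcx) with h2 | h2
            · exact h2
            · exact absurd h2 fun h2 => hno x a c hJx hJa hJc (Ne.symm hax) (Ne.symm hca)
                (Ne.symm hcx) h (ha c hc hca) h2
    · rw [Finset.not_nonempty_iff_eq_empty] at hs
      subst hs
      refine ⟨x, by simp, ?_⟩
      intro c hc hcx
      simp at hc
      exact absurd hc hcx

theorem etop : S_ETOP := by
  classical
  intro δ hR v a₀ hv h0 h0'
  have b1 : ∀ a, Bd 6 (tog a v) := fun a => Bd_mono (by norm_num) (Bd_tog a hv)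
  have b2 : ∀ a c, Bd 6 (tog c (tog a v)) := fun a c =>
    Bd_mono (by norm_num) (Bd_tog c (Bd_tog a hv))
  have b3 : ∀ a c d, Bd 6 (tog d (tog c (tog a v))) := fun a c d =>
    Bd_mono (by norm_num) (Bd_tog d (Bd_tog c (Bd_tog a hv)))
  have b0 : Bd 6 v := Bd_mono (by norm_num) hv
  set J : E → Prop := fun a => some a ≠ δ v ∧ δ (tog a v) = some a with hJ
  set B : E → E → Prop := fun a c => δ (tog c (tog a v)) = some a with hB
  have step : ∀ a c, J a → c ≠ a → δ (tog c (tog a v)) = some a ∨ δ (tog c (tog a v)) = some c := by
    intro a c ha hca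
    rcases hR (tog a v) c (b1 a) (b2 a c) with h | h | h
    · left; rw [← h]; exact ha.2
    · rw [ha.2] at h
      exact absurd (Option.some.inj h).symm hca
    · right; exact h
  have htot : ∀ a c, J a → J c → a ≠ c → B a c ∨ B c a := by
    intro a c ha hc hac
    rcases step a c ha hac.symm with h | h
    · exact Or.inl h
    · right
      simp only [hB]
      rw [tog_comm]
      exact h
  have hno : ∀ a c d, J a → J c → J d → a ≠ c → c ≠ d → a ≠ d → B a c → B c d → B d a →
      False := by
    intro a c d ha hc hd hac hcd had h1 h2 h3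
    simp only [hB] at h1 h2 h3
    -- u = tog d (tog c (tog a v))
    have e1 := hR (tog c (tog a v)) d (b2 a c) (b3 a c d)
    have e2 := hR (tog d (tog c v)) a (b2 c d) (b3 c d a)
    have e3 := hR (tog a (tog d v)) c (b2 d a) (b3 d a c)
    have u2 : tog a (tog d (tog c v)) = tog d (tog c (tog a v)) := by
      rw [tog_comm a d, tog_comm a c]
    have u3 : tog c (tog a (tog d v)) = tog d (tog c (tog a v)) := by
      rw [tog_comm a d, tog_comm c d]
    rw [u2] at e2
    rw [u3] at e3
    rw [h1] at e1
    rw [h2] at e2
    rw [h3] at e3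
    generalize δ (tog d (tog c (tog a v))) = w at e1 e2 e3
    simp only [Option.some.injEq] at e1 e2 e3
    rcases e1 with e1 | e1 | e1
    · subst e1
      simp only [Option.some.injEq] at e2 e3
      rcases e3 with e3 | e3 | e3
      · exact had e3.symm
      · exact hcd e3.symm
      · exact hac e3
    · exact had e1
    · subst e1
      simp only [Option.some.injEq] at e2
      rcases e2 with e2 | e2 | e2
      · exact hcd e2
      · exact hac e2.symm
      · exact had e2.symm
  obtain ⟨a, haJ, ha⟩ := exists_top B J htot hno (Finset.univ.filter J)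
    ⟨a₀, by simp only [Finset.mem_filter, Finset.mem_univ, true_and]; exact ⟨h0, h0'⟩⟩
    (fun a ha => (Finset.mem_filter.1 ha).2)
  have haJ' : J a := (Finset.mem_filter.1 haJ).2
  refine ⟨a, haJ'.1, haJ'.2, ?_⟩
  intro c hca hcv
  by_cases hcJ : J c
  · exact ha c (Finset.mem_filter.2 ⟨Finset.mem_univ _, hcJ⟩) hca
  · have hcv' : δ (tog c v) = δ v := by
      rcases hR v c b0 (b1 c) with h | h | h
      · exact h.symm
      · exact absurd h.symm hcv
      · exact absurd ⟨hcv, h⟩ hcJ
    rcases step a c haJ' hca with h | h
    · exact h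
    · rcases hR (tog c v) a (b1 c) (b2 c a) with k | k | k
      · rw [tog_comm a c, h, hcv'] at k
        exact absurd k.symm hcv
      · rw [hcv'] at k
        exact absurd k.symm haJ'.1
      · rw [tog_comm a c] at k
        exact k

end Pool.Agent.Helper71.SD.ETOP
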