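import Pool.Agent.Helper78.SD.Goals2

/-!
# Packet CLOSE: closing off a small set of a commutative ring
-/

universe u v w x

namespace Pool.Agent.Helper89.SD.Close

open Pool.Agent.Helper78.SD Pool.Agent.Helper10.Width

section main

variable {C : Type v} [CommRing C] (F : ℕ → C → C)

/-- One step of the closure. -/
def step (X : Set C) : Set C :=
  (Algebra.adjoin ℤ X : Set C) ∪
    Set.range (fun p : ℕ × (Algebra.adjoin ℤ X : Set C) => F p.1 p.2.1)

/-- The iterated closure. -/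
def itr (D : Set C) : ℕ → Set C
  | 0 => D
  | n + 1 => step F (itr D n)

theorem card_step {κ : Cardinal.{v}} (hκ : Cardinal.aleph0 ≤ κ) (X : Set C)
    (hX : Cardinal.mk X ≤ κ) : Cardinal.mk (step F X) ≤ κ := by
  have h1 : Cardinal.mk (Algebra.adjoin ℤ X : Set C) ≤ κ := by
    have h := Algebra.lift_cardinalMk_adjoin_le ℤ X
    rw [Cardinal.lift_uzero, Cardinal.lift_uzero] at h
    refine h.trans ?_
    refine max_le (max_le ?_ hX) hκ
    rw [Cardinal.mk_int, Cardinal.lift_aleph0]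
    exact hκ
  have h2 : Cardinal.mk (Set.range (fun p : ℕ × (Algebra.adjoin ℤ X : Set C) => F p.1 p.2.1))
      ≤ κ := by
    refine Cardinal.mk_range_le.trans ?_
    rw [Cardinal.mk_prod, Cardinal.mk_nat, Cardinal.lift_aleph0, Cardinal.lift_uzero]
    exact (mul_le_mul' hκ h1).trans (Cardinal.mul_eq_self hκ).le
  exact (Cardinal.mk_union_le _ _).trans ((add_le_add h1 h2).trans (Cardinal.add_eq_self hκ).le)

theorem card_itr {κ : Cardinal.{v}} (hκ : Cardinal.aleph0 ≤ κ) (D : Set C)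
    (hD : Cardinal.mk D ≤ κ) (n : ℕ) : Cardinal.mk (itr F D n) ≤ κ := by
  induction n with
  | zero => exact hD
  | succ n ih => exact card_step F hκ _ ih

theorem adjoin_sub (D : Set C) (n : ℕ) :
    (Algebra.adjoin ℤ (itr F D n) : Set C) ⊆ itr F D (n + 1) :=
  fun _ hx => Or.inl hx

theorem itr_succ (D : Set C) (n : ℕ) : itr F D n ⊆ itr F D (n + 1) :=
  fun _ hx => adjoin_sub F D n (Algebra.subset_adjoin hx)

theorem itr_mono (D : Set C) : Monotone (itr F D) :=
  monotone_nat_of_le_succ fun n => itr_succ F D n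

/-- The closure. -/
def closure (D : Set C) : Subring C where
  carrier := ⋃ n, itr F D n
  zero_mem' := Set.mem_iUnion.2 ⟨1, adjoin_sub F D 0 (Subalgebra.zero_mem _)⟩
  one_mem' := Set.mem_iUnion.2 ⟨1, adjoin_sub F D 0 (Subalgebra.one_mem _)⟩
  neg_mem' := by
    intro x hx
    obtain ⟨n, hn⟩ := Set.mem_iUnion.1 hx
    exact Set.mem_iUnion.2 ⟨n + 1, adjoin_sub F D n
      (Subalgebra.neg_mem _ (Algebra.subset_adjoin hn))⟩
  add_mem' := by
    intro x y hx hy
    obtain ⟨n, hn⟩ := Set.mem_iUnion.1 hx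
    obtain ⟨m, hm⟩ := Set.mem_iUnion.1 hy
    exact Set.mem_iUnion.2 ⟨max n m + 1, adjoin_sub F D _ (Subalgebra.add_mem _
      (Algebra.subset_adjoin (itr_mono F D (le_max_left n m) hn))
      (Algebra.subset_adjoin (itr_mono F D (le_max_right n m) hm)))⟩
  mul_mem' := by
    intro x y hx hy
    obtain ⟨n, hn⟩ := Set.mem_iUnion.1 hx
    obtain ⟨m, hm⟩ := Set.mem_iUnion.1 hy
    exact Set.mem_iUnion.2 ⟨max n m + 1, adjoin_sub F D _ (Subalgebra.mul_mem _
      (Algebra.subset_adjoin (itr_mono F D (le_max_left n m) hn))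
      (Algebra.subset_adjoin (itr_mono F D (le_max_right n m) hm)))⟩

theorem card_closure {κ : Cardinal.{v}} (hκ : Cardinal.aleph0 ≤ κ) (D : Set C)
    (hD : Cardinal.mk D ≤ κ) : Cardinal.mk (closure F D) ≤ κ := by
  let f : (Σ n : ℕ, itr F D n) → closure F D :=
    fun p => ⟨p.2.1, Set.mem_iUnion.2 ⟨p.1, p.2.2⟩⟩
  have hf : Function.Surjective f := by
    rintro ⟨x, hx⟩
    obtain ⟨n, hn⟩ := Set.mem_iUnion.1 hx
    exact ⟨⟨n, ⟨x, hn⟩⟩, rfl⟩
  refine (Cardinal.mk_le_of_surjective hf).trans ?_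
  rw [Cardinal.mk_sigma]
  refine (Cardinal.sum_le_sum _ (fun _ => κ) fun n => card_itr F hκ D hD n).trans ?_
  rw [Cardinal.sum_const, Cardinal.mk_nat, Cardinal.lift_aleph0, Cardinal.lift_uzero]
  exact (mul_le_mul' hκ le_rfl).trans (Cardinal.mul_eq_self hκ).le

end main

theorem goalClose : GoalClose.{v} := by
  intro C _ F D hD
  refine ⟨closure F D, ?_, fun x hx => Set.mem_iUnion.2 ⟨0, hx⟩, ?_⟩
  · refine (card_closure F (le_max_left Cardinal.aleph0 (Cardinal.mk D)) D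
      (le_max_right _ _)).trans_lt ?_
    exact max_lt aleph0_lt_lift hD
  · intro n x hx
    obtain ⟨m, hm⟩ := Set.mem_iUnion.1 hx
    exact Set.mem_iUnion.2 ⟨m + 1, Or.inr ⟨(n, ⟨x, Algebra.subset_adjoin hm⟩), rfl⟩⟩

end Pool.Agent.Helper89.SD.Close
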